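import Pool.Agent.Q203.CSG.Defs

/-!
# Commutative semigroup presentations with ordinal ranks
-/

set_option autoImplicit false

namespace Q203.CSG

/-! ## Ordinal values of lists -/

theorem val_lt_cons {s s' : List ℕ} (a b : ℕ) (h : val s < val s') :
    val (a :: s) < val (b :: s') := by
  show Ordinal.omega0 * val s + a < Ordinal.omega0 * val s' + b
  have h1 : Ordinal.omega0 * val s + (a : Ordinal) < Ordinal.omega0 * val s + Ordinal.omega0 :=
    (add_lt_add_iff_left _).2 (Ordinal.natCast_lt_omega0 a)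
  have h2 : Ordinal.omega0 * val s + Ordinal.omega0 ≤ Ordinal.omega0 * val s' := by
    rw [← Ordinal.mul_succ]
    exact mul_le_mul_right (Order.succ_le_of_lt h) _
  exact (h1.trans_le h2).trans_le (le_self_add)

theorem val_lt_cons' (s : List ℕ) {a b : ℕ} (h : a < b) : val (a :: s) < val (b :: s) := by
  show Ordinal.omega0 * val s + a < Ordinal.omega0 * val s + b
  exact (add_lt_add_iff_left _).2 (Nat.cast_lt.2 h)

theorem val_eq_cons {s s' : List ℕ} {a b : ℕ} (h : val (a :: s) = val (b :: s')) :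
    a = b ∧ val s = val s' := by
  rcases lt_trichotomy (val s) (val s') with h1 | h1 | h1
  · exact absurd h (val_lt_cons a b h1).ne
  · refine ⟨?_, h1⟩
    have h2 : Ordinal.omega0 * val s + (a : Ordinal) = Ordinal.omega0 * val s' + b := h
    rw [h1] at h2
    exact_mod_cast (add_right_inj _).1 h2
  · exact absurd h (val_lt_cons b a h1).ne'

theorem val_lt_of : ∀ (l l' : List ℕ), l.length = l'.length → ∀ d < l.length,
    l.getD d 0 < l'.getD d 0 → (∀ i, d < i → l.getD i 0 = l'.getD i 0) → val l < val l' := by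
  intro l
  induction l with
  | nil => intro l' _ d hd; simp at hd
  | cons a s ih =>
    intro l' hl d hd h1 h2
    cases l' with
    | nil => simp at hl
    | cons b s' =>
      cases d with
      | zero =>
        have h3 : s = s' := by
          apply List.ext_getElem (by simpa using hl)
          intro n hn hn'
          have := h2 (n + 1) (by omega)
          simpa [List.getD_eq_getElem, hn, hn'] using this
        subst h3
        exact val_lt_cons' s (by simpa using h1)
      | succ d =>
        apply val_lt_cons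
        refine ih s' (by simpa using hl) d (by simpa using hd) (by simpa using h1) ?_
        intro i hi
        have := h2 (i + 1) (by omega)
        simpa using this

theorem val_lt_range (n : ℕ) (x y : ℕ) (f g : ℕ → ℕ) (d : ℕ) (hd : d < n) (h1 : f d < g d)
    (h2 : ∀ i, d < i → i < n → f i = g i) :
    val (x :: (List.range n).map f) < val (y :: (List.range n).map g) := by
  refine val_lt_of _ _ (by simp) (d + 1) (by simp [hd]) ?_ ?_
  · simp [List.getD_eq_getElem, hd, h1]
  · intro i hi
    obtain ⟨j, rfl⟩ : ∃ j, i = j + 1 := ⟨i - 1, by omega⟩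
    by_cases hj : j < n
    · simp [List.getD_eq_getElem, hj, h2 j (by omega) hj]
    · rw [List.getD_eq_default, List.getD_eq_default]
      · simp; omega
      · simp; omega

/-! ## Data -/

abbrev Piece : Type := List ℕ × List ℕ
abbrev Ent : Type := List ℕ × List ℕ × List Piece
abbrev Dat : Type := List Ent

/-- The vector `m` lies in the piece `P`. -/
def inP (k : ℕ) (P : Piece) (m : Fin k → ℕ) : Prop :=
  ∀ i : Fin k, (i : ℕ) ∈ P.1 ∨ P.2.getD i 0 = m i

def cover (k : ℕ) : Dat → List Piece
  | [] => [(List.range k, [])]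
  | t :: _ => t.2.2

def lexlt (k : ℕ) (a b : List ℕ) : Prop :=
  ∃ i, i < k ∧ a.getD i 0 < b.getD i 0 ∧ ∀ j < i, a.getD j 0 = b.getD j 0

def nz (k : ℕ) (a : List ℕ) : Prop := ∃ i, i < k ∧ a.getD i 0 ≠ 0

def Sub (k : ℕ) (P : Piece) (i j : ℕ) (P' : Piece) : Prop :=
  ∀ l < k, l ∈ P'.1 ∨ (l = i ∧ P'.2.getD l 0 = j) ∨
    (l ≠ i ∧ l ∉ P.1 ∧ P'.2.getD l 0 = P.2.getD l 0)

def StepCov (k : ℕ) (L0 : List Piece) (a : List ℕ) (L : List Piece) : Prop :=
  ∀ P ∈ L0, P ∈ L ∨ ((∀ i < k, i ∈ P.1 ∨ a.getD i 0 ≤ P.2.getD i 0) ∧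
    ∀ i ∈ P.1, ∀ j < a.getD i 0, ∃ P' ∈ L, Sub k P i j P')

def GoodE (k : ℕ) (L0 : List Piece) (t : Ent) : Prop :=
  lexlt k t.2.1 t.1 ∧ nz k t.2.1 ∧ (∀ P ∈ t.2.2, P.1.length ≤ k) ∧ StepCov k L0 t.1 t.2.2

def Good (k : ℕ) : Dat → Prop
  | [] => True
  | t :: T => Good k T ∧ GoodE k (cover k T) t

theorem Good.mem {k : ℕ} : ∀ {T : Dat}, Good k T → ∀ t ∈ T, lexlt k t.2.1 t.1 ∧ nz k t.2.1 := by
  intro T
  induction T with
  | nil => intro _ t ht; simp at ht
  | cons s T ih =>
    intro h t ht
    rcases List.mem_cons.1 ht with rfl | ht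
    · exact ⟨h.2.1, h.2.2.1⟩
    · exact ih h.1 t ht

theorem Good.len {k : ℕ} : ∀ {T : Dat}, Good k T → ∀ P ∈ cover k T, P.1.length ≤ k := by
  intro T h
  cases T with
  | nil =>
    intro P hP
    simp only [cover, List.mem_singleton] at hP
    subst hP
    simp
  | cons s T => exact h.2.2.2.1

theorem cover_sound {k : ℕ} : ∀ {T : Dat}, Good k T → ∀ m : Fin k → ℕ,
    (∀ t ∈ T, ¬ vec k t.1 ≤ m) → ∃ P ∈ cover k T, inP k P m := by
  intro T
  induction T with
  | nil =>
    intro _ m _
    refine ⟨_, List.mem_singleton.2 rfl, fun i => Or.inl ?_⟩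
    simp
  | cons s T ih =>
    intro h m hm
    obtain ⟨P, hP, hPm⟩ := ih h.1 m fun t ht => hm t (List.mem_cons_of_mem _ ht)
    rcases h.2.2.2.2 P hP with h1 | ⟨h1, h2⟩
    · exact ⟨P, h1, hPm⟩
    · have h3 := hm s List.mem_cons_self
      rw [Pi.le_def] at h3
      push Not at h3
      obtain ⟨i, hi⟩ := h3
      have hi' : m i < s.1.getD i 0 := hi
      have h4 : (i : ℕ) ∈ P.1 := by
        by_contra h4
        rcases h1 i i.2 with h5 | h5
        · exact h4 h5
        · rcases hPm i with h6 | h6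
          · exact h4 h6
          · omega
      obtain ⟨P', hP', hS⟩ := h2 i h4 (m i) hi'
      refine ⟨P', hP', fun l => ?_⟩
      rcases hS l l.2 with h5 | ⟨h5, h6⟩ | ⟨h5, h6, h7⟩
      · exact Or.inl h5
      · right
        rw [h6, Fin.ext h5]
      · right
        rw [h7]
        exact (hPm l).resolve_left h6

/-! ## Words -/

theorem vec_surj (k : ℕ) (m : Fin k → ℕ) : ∃ l : List ℕ, vec k l = m := by
  refine ⟨List.ofFn m, funext fun i => ?_⟩
  simp [vec, List.getD_eq_getElem]

theorem nz_iff (k : ℕ) (a : List ℕ) : nz k a ↔ vec k a ≠ 0 := by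
  rw [Function.ne_iff]
  constructor
  · rintro ⟨i, hi, h⟩
    exact ⟨⟨i, hi⟩, h⟩
  · rintro ⟨i, h⟩
    exact ⟨i, i.2, h⟩

theorem lexlt_iff (k : ℕ) (a b : List ℕ) :
    lexlt k a b ↔ toLex (vec k a) < toLex (vec k b) := by
  constructor
  · rintro ⟨i, hi, h1, h2⟩
    refine ⟨⟨i, hi⟩, fun j hj => ?_, h1⟩
    exact h2 j hj
  · rintro ⟨i, h1, h2⟩
    refine ⟨i, i.2, h2, fun j hj => ?_⟩
    exact h1 ⟨j, hj.trans i.2⟩ hj

theorem lex_add {k : ℕ} {x y : Fin k → ℕ} (h : toLex x < toLex y) (p : Fin k → ℕ) :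
    toLex (x + p) < toLex (y + p) := by
  obtain ⟨i, h1, h2⟩ := h
  refine ⟨i, fun j hj => ?_, ?_⟩
  · have : x j = y j := h1 j hj
    show x j + p j = y j + p j
    rw [this]
  · have : x i < y i := h2
    show x i + p i < y i + p i
    omega

theorem lex_ne_zero {k : ℕ} {x y : Fin k → ℕ} (h : toLex x < toLex y) : y ≠ 0 := by
  rintro rfl
  obtain ⟨i, -, h2⟩ := h
  exact absurd h2 (Nat.not_lt_zero _)

/-- The relations of the data. -/
def relT (k : ℕ) (T : Dat) (u v : CW k) : Prop :=
  ∃ t ∈ T, u.1 = vec k t.1 ∧ v.1 = vec k t.2.1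

theorem reduce {k : ℕ} {T : Dat} (hT : Good k T) : ∀ w : CW k, ∃ w' : CW k,
    addConGen (relT k T) w w' ∧ ∀ t ∈ T, ¬ vec k t.1 ≤ w'.1 := by
  have hwf : WellFounded (fun x y : Fin k → ℕ => toLex x < toLex y) :=
    InvImage.wf toLex (wellFounded_lt (α := Lex (Fin k → ℕ)))
  have key : ∀ m : Fin k → ℕ, ∀ w : CW k, w.1 = m → ∃ w' : CW k,
      addConGen (relT k T) w w' ∧ ∀ t ∈ T, ¬ vec k t.1 ≤ w'.1 := by
    intro m
    induction m using hwf.induction with
    | _ m ih =>
      rintro w rfl
      by_cases h : ∀ t ∈ T, ¬ vec k t.1 ≤ w.1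
      · exact ⟨w, (addConGen (relT k T)).refl w, h⟩
      · push Not at h
        obtain ⟨t, ht, hle⟩ := h
        obtain ⟨h1, h2⟩ := hT.mem t ht
        rw [lexlt_iff] at h1
        rw [nz_iff] at h2
        obtain ⟨p, hp⟩ : ∃ p : Fin k → ℕ, w.1 = vec k t.1 + p := by
          refine ⟨w.1 - vec k t.1, ?_⟩
          funext i
          exact (Nat.add_sub_of_le (hle i)).symm
        have h3 : vec k t.2.1 + p ≠ 0 := by
          intro h
          apply h2
          funext i
          have : vec k t.2.1 i + p i = 0 := congrFun h i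
          show vec k t.2.1 i = 0
          omega
        let w₂ : CW k := ⟨vec k t.2.1 + p, h3⟩
        have h4 : toLex w₂.1 < toLex w.1 := by
          rw [hp]
          exact lex_add h1 p
        obtain ⟨w', hw1, hw2⟩ := ih w₂.1 h4 w₂ rfl
        refine ⟨w', (addConGen (relT k T)).trans ?_ hw1, hw2⟩
        have h5 : addConGen (relT k T) (⟨vec k t.1, lex_ne_zero h1⟩ : CW k) ⟨vec k t.2.1, h2⟩ :=
          AddConGen.Rel.of _ _ ⟨t, ht, rfl, rfl⟩
        by_cases hp0 : p = 0
        · have e1 : w = ⟨vec k t.1, lex_ne_zero h1⟩ := Subtype.ext (by rw [hp, hp0, add_zero])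
          have e2 : w₂ = ⟨vec k t.2.1, h2⟩ := Subtype.ext (by
            show vec k t.2.1 + p = vec k t.2.1
            rw [hp0, add_zero])
          rw [e1, e2]
          exact h5
        · let a' : CW k := ⟨vec k t.1, lex_ne_zero h1⟩
          let p' : CW k := ⟨p, hp0⟩
          have h6 := (addConGen (relT k T)).add h5 ((addConGen (relT k T)).refl p')
          have e1 : w = a' + p' := Subtype.ext hp
          rw [e1]
          exact h6
  intro w
  exact key w.1 w rfl

/-! ## Ranks -/

def cnt (d : ℕ) (L : List Piece) : ℕ := L.countP fun P => decide (P.1.length = d)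

/-- The rank of data, as a list of coefficients. -/
def Psi (k : ℕ) (T : Dat) : List ℕ :=
  Encodable.encode (k, T) :: (List.range (k + 1)).map fun d => cnt d (cover k T)

theorem Psi_inj {k k' : ℕ} {T T' : Dat} (h : val (Psi k T) = val (Psi k' T')) :
    k = k' ∧ T = T' := by
  have := Encodable.encode_injective (val_eq_cons h).1
  exact ⟨congrArg Prod.fst this, congrArg Prod.snd this⟩

def setAt (k : ℕ) (v : List ℕ) (i j : ℕ) : List ℕ :=
  (List.range k).map fun l => if l = i then j else v.getD l 0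

theorem setAt_getD {k : ℕ} {v : List ℕ} {i j l : ℕ} (hl : l < k) :
    (setAt k v i j).getD l 0 = if l = i then j else v.getD l 0 := by
  simp [setAt, List.getD_eq_getElem, hl]

def subs (k : ℕ) (P : Piece) (a : List ℕ) : List Piece :=
  P.1.flatMap fun i => (List.range (a.getD i 0)).map fun j => (P.1.erase i, setAt k P.2 i j)

theorem subs_len {k : ℕ} {P : Piece} {a : List ℕ} {Q : Piece} (h : Q ∈ subs k P a) :
    Q.1.length < P.1.length := by
  simp only [subs, List.mem_flatMap, List.mem_map, List.mem_range] at h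
  obtain ⟨i, hi, j, -, rfl⟩ := h
  have h1 : 0 < P.1.length := List.length_pos_of_mem hi
  simp only [List.length_erase_of_mem hi]
  omega

theorem subs_Sub {k : ℕ} {P : Piece} {a : List ℕ} {i j : ℕ} (hi : i ∈ P.1)
    (hj : j < a.getD i 0) : ∃ Q ∈ subs k P a, Sub k P i j Q := by
  refine ⟨(P.1.erase i, setAt k P.2 i j), ?_, ?_⟩
  · simp only [subs, List.mem_flatMap, List.mem_map, List.mem_range]
    exact ⟨i, hi, j, hj, rfl⟩
  · intro l hl
    by_cases h1 : l ∈ P.1.erase i
    · exact Or.inl h1
    · right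
      rw [setAt_getD hl]
      by_cases h2 : l = i
      · left
        exact ⟨h2, by simp [h2]⟩
      · right
        refine ⟨h2, fun h3 => h1 ((List.mem_erase_of_ne h2).2 h3), by simp [h2]⟩

/-- The key lemma: data whose congruence is strictly smaller than a congruence `r` containing it can
be extended by a pair of `r`, with smaller rank. -/
theorem extend {k : ℕ} {T : Dat} (hT : Good k T) (r : AddCon (CW k))
    (hr : ∀ u v, relT k T u v → r u v) {w w' : CW k} (h1 : r w w')
    (h2 : ¬ addConGen (relT k T) w w') :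
    ∃ t : Ent, Good k (t :: T) ∧ (∀ u v : CW k, u.1 = vec k t.1 → v.1 = vec k t.2.1 → r u v) ∧
      val (Psi k (t :: T)) < val (Psi k T) := by
  have hle : ∀ u v, addConGen (relT k T) u v → r u v := by
    intro u v h
    exact (AddCon.addConGen_le.2 hr) h
  obtain ⟨w₁, h3, h3'⟩ := reduce hT w
  obtain ⟨w₂, h4, h4'⟩ := reduce hT w'
  have h5 : r w₁ w₂ := r.trans (r.symm (hle _ _ h3)) (r.trans h1 (hle _ _ h4))
  have h6 : w₁ ≠ w₂ := by
    rintro rfl
    exact h2 ((addConGen (relT k T)).trans h3 ((addConGen (relT k T)).symm h4))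
  -- order the two words
  have h7 : ∃ x y : CW k, r x y ∧ toLex y.1 < toLex x.1 ∧ ∀ t ∈ T, ¬ vec k t.1 ≤ x.1 := by
    rcases lt_trichotomy (toLex w₁.1) (toLex w₂.1) with h | h | h
    · exact ⟨w₂, w₁, r.symm h5, h, h4'⟩
    · exact absurd (Subtype.ext (toLex.injective h)) h6
    · exact ⟨w₁, w₂, h5, h, h3'⟩
  obtain ⟨x, y, hxy, hlt, hx⟩ := h7
  obtain ⟨a, ha⟩ := vec_surj k x.1
  obtain ⟨b, hb⟩ := vec_surj k y.1
  obtain ⟨P, hP, hPx⟩ := cover_sound hT x.1 hx
  let L := (cover k T).erase P ++ subs k P a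
  refine ⟨(a, b, L), ⟨hT, ?_, ?_, ?_, ?_⟩, ?_, ?_⟩
  · rw [lexlt_iff, ha, hb]
    exact hlt
  · rw [nz_iff, hb]
    exact y.2
  · intro Q hQ
    rcases List.mem_append.1 hQ with hQ | hQ
    · exact hT.len Q (List.mem_of_mem_erase hQ)
    · exact (subs_len hQ).le.trans (hT.len P hP)
  · intro Q hQ
    by_cases hQP : Q = P
    · subst hQP
      right
      refine ⟨fun i hi => ?_, fun i hi j hj => ?_⟩
      · rcases hPx ⟨i, hi⟩ with h | h
        · exact Or.inl h
        · right
          have : a.getD i 0 = x.1 ⟨i, hi⟩ := congrFun ha ⟨i, hi⟩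
          rw [this, ← h]
      · obtain ⟨Q', h8, h9⟩ := subs_Sub (k := k) hi hj
        exact ⟨Q', List.mem_append_right _ h8, h9⟩
    · exact Or.inl (List.mem_append_left _ ((List.mem_erase_of_ne hQP).2 hQ))
  · intro u v hu hv
    have e1 : u = x := Subtype.ext (hu.trans ha)
    have e2 : v = y := Subtype.ext (hv.trans hb)
    rw [e1, e2]
    exact hxy
  · have hcnt : ∀ d, P.1.length ≤ d → cnt d (subs k P a) = 0 := by
      intro d hd
      rw [cnt, List.countP_eq_zero]
      intro Q hQ
      have := subs_len hQ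
      simp only [decide_eq_true_eq]
      omega
    refine val_lt_range (k + 1) _ _ _ _ P.1.length ?_ ?_ ?_
    · have := hT.len P hP
      omega
    · show cnt _ L < cnt _ (cover k T)
      have h8 : cnt P.1.length L = cnt P.1.length ((cover k T).erase P) := by
        show List.countP _ ((cover k T).erase P ++ subs k P a) = _
        rw [List.countP_append]
        have := hcnt _ le_rfl
        rw [cnt] at this
        rw [this, add_zero]
        rfl
      rw [h8]
      have h9 : 0 < cnt P.1.length (cover k T) := by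
        rw [cnt, List.countP_pos_iff]
        exact ⟨P, hP, by simp⟩
      have h10 : cnt P.1.length ((cover k T).erase P) = cnt P.1.length (cover k T) - 1 := by
        simp only [cnt]
        rw [List.countP_erase]
        simp only [hP, decide_true, and_self, if_true]
      rw [h10]
      omega
    · intro i hi hik
      show cnt _ L = cnt _ (cover k T)
      show List.countP _ ((cover k T).erase P ++ subs k P a) = _
      rw [List.countP_append]
      have := hcnt i hi.le
      rw [cnt] at this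
      rw [this, add_zero, List.countP_erase]
      have h8 : P.1.length ≠ i := hi.ne
      simp [h8, cnt]

end Q203.CSG
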