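import Mathlib

/-!
Definitions: computably enumerable presentations of commutative semigroups, their isomorphism
relations, and the relations `E_min(α)` for `α ≤ ω^ω`.
-/

set_option autoImplicit false

namespace Q203.CSG

/-- The `e`-th computably enumerable set. -/
def W (e : ℕ) : Set ℕ := {x | ((Denumerable.ofNat Nat.Partrec.Code e).eval x).Dom}

/-- Computable reducibility `E ≤_c F` of relations on `ℕ`. -/
def CRed (E F : ℕ → ℕ → Prop) : Prop :=
  ∃ f : ℕ → ℕ, Computable f ∧ ∀ x y, E x y ↔ F (f x) (f y)

/-- The ordinal below `ω ^ ω` with the given Cantor normal form coefficients, lowest coefficient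
first: `val [a₀, a₁, …, aₘ] = ω ^ m * aₘ + ⋯ + ω * a₁ + a₀`. -/
noncomputable def val : List ℕ → Ordinal.{0}
  | [] => 0
  | a :: l => Ordinal.omega0 * val l + a

/-- A computable well-ordering of `ℕ` of order type `α ≤ ω ^ ω` in which the rank of each element
is computable: `c m` is the list of the Cantor normal form coefficients of the rank of `m`. -/
structure IsCopy (α : Ordinal.{0}) (c : ℕ → List ℕ) : Prop where
  computable : Computable c
  injective : ∀ m n, val (c m) = val (c n) → m = n
  range : ∀ β, (∃ m, val (c m) = β) ↔ β < α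

/-- The relation `E_min` of the well-ordering of `ℕ` given by the ranks `c`: both c.e. sets are
empty, or both are nonempty and they have the same least element. -/
def EMin (c : ℕ → List ℕ) (e i : ℕ) : Prop :=
  (W e = ∅ ∧ W i = ∅) ∨ ∃ m, m ∈ W e ∧ m ∈ W i ∧
    (∀ x ∈ W e, val (c m) ≤ val (c x)) ∧ ∀ x ∈ W i, val (c m) ≤ val (c x)

/-- The nonempty commutative words in `x_0, …, x_{k-1}`, as nonzero exponent vectors. -/
def CW (k : ℕ) : Type := {v : Fin k → ℕ // v ≠ 0}

/-- The free commutative semigroup on `k` generators. -/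
instance (k : ℕ) : AddCommSemigroup (CW k) where
  add u v := ⟨u.1 + v.1, fun h => u.2 (funext fun i => by
    have h1 : u.1 i + v.1 i = 0 := congrFun h i
    show u.1 i = 0
    omega)⟩
  add_assoc u v w := Subtype.ext (add_assoc u.1 v.1 w.1)
  add_comm u v := Subtype.ext (add_comm u.1 v.1)

/-- The exponent vector coded by a list. -/
def vec (k : ℕ) (l : List ℕ) : Fin k → ℕ := fun i => l.getD i 0

/-- The defining relations with codes in `W_e`: the number of the pair of lists `(a, b)` codes the
equation between the words with exponent vectors `a` and `b` (if both are nonempty words). -/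
def relOf (k e : ℕ) (u v : CW k) : Prop :=
  ∃ x ∈ W e, u.1 = vec k (Denumerable.ofNat (List ℕ × List ℕ) x).1 ∧
    v.1 = vec k (Denumerable.ofNat (List ℕ × List ℕ) x).2

/-- The commutative semigroup `⟨x_0, …, x_{k-1} | W_e⟩`. -/
abbrev Pres (k e : ℕ) : Type := (addConGen (relOf k e)).Quotient

/-- Isomorphism of c.e. presentations with `n` generators. -/
def IsoN (n : ℕ) (e i : ℕ) : Prop := Nonempty (Pres n e ≃+ Pres n i)

/-- Isomorphism of finitely generated c.e. presentations; `⟨k, j⟩` is an index of the semigroup
`⟨x_0, …, x_k | W_j⟩` with `k + 1` generators. -/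
def IsoFG (e i : ℕ) : Prop :=
  Nonempty (Pres (e.unpair.1 + 1) e.unpair.2 ≃+ Pres (i.unpair.1 + 1) i.unpair.2)

end Q203.CSG
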