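import Pool.Agent.Q203.CSG.Red

/-!
# Bounds for the isomorphism relations of c.e. commutative semigroups
-/

set_option autoImplicit false

open Pool.Agent.Helper446 Ordinal

namespace Q203.CSG

theorem omega_mul_opow (n : ℕ) : ω * ω ^ (n : Ordinal.{0}) = ω ^ ((n + 1 : ℕ) : Ordinal.{0}) := by
  have h : ((n + 1 : ℕ) : Ordinal.{0}) = 1 + (n : Ordinal.{0}) := by
    rw [add_comm n 1, Nat.cast_add, Nat.cast_one]
  rw [h, opow_add, opow_one]

theorem val_lt (l : List ℕ) : val l < ω ^ (l.length : Ordinal.{0}) := by
  induction l with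
  | nil => simp [val]
  | cons a s ih =>
    show ω * val s + a < ω ^ ((s.length + 1 : ℕ) : Ordinal.{0})
    rw [← omega_mul_opow]
    have h1 : ω * val s + (a : Ordinal) < ω * val s + ω :=
      (add_lt_add_iff_left _).2 (Ordinal.natCast_lt_omega0 a)
    have h2 : ω * val s + ω ≤ ω * ω ^ (s.length : Ordinal.{0}) := by
      rw [← Ordinal.mul_succ]
      exact mul_le_mul_right (Order.succ_le_of_lt ih) _
    exact h1.trans_le h2

theorem exists_val (n : ℕ) : ∀ β : Ordinal.{0}, β < ω ^ (n : Ordinal.{0}) →
    ∃ l : List ℕ, l.length = n ∧ val l = β := by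
  induction n with
  | zero =>
    intro β hβ
    rw [Nat.cast_zero, opow_zero, Order.lt_one_iff] at hβ
    exact ⟨[], rfl, hβ.symm⟩
  | succ n ih =>
    intro β hβ
    rw [← omega_mul_opow] at hβ
    have h1 : β / ω < ω ^ (n : Ordinal.{0}) := (Ordinal.lt_mul_iff_div_lt omega0_ne_zero).1 hβ
    obtain ⟨l, hl, hl'⟩ := ih _ h1
    have h2 : β % ω < ω := Ordinal.mod_lt _ omega0_ne_zero
    obtain ⟨a, ha⟩ := Ordinal.lt_omega0.1 h2
    refine ⟨a :: l, by simp [hl], ?_⟩
    show ω * val l + a = β
    rw [hl', ← ha, Ordinal.div_add_mod]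

theorem lt_omega_omega {β : Ordinal.{0}} (h : β < ω ^ ω) : ∃ n : ℕ, β < ω ^ (n : Ordinal.{0}) := by
  rcases eq_or_ne β 0 with rfl | h0
  · exact ⟨0, by simp⟩
  obtain ⟨c, hc, hβ⟩ := (Ordinal.lt_opow_of_isSuccLimit omega0_ne_zero isSuccLimit_omega0).1 h
  obtain ⟨n, rfl⟩ := Ordinal.lt_omega0.1 hc
  exact ⟨n, hβ⟩

theorem opow_nat_lt (n : ℕ) : ω ^ (n : Ordinal.{0}) < ω ^ ω :=
  (Ordinal.opow_lt_opow_iff_right one_lt_omega0).2 (natCast_lt_omega0 n)

/-! ## Copies -/

/-- a copy of `ω ^ (m + 1)` -/
def cN : ℕ → ℕ → List ℕ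
  | 0, n => [n]
  | m + 1, n => n.unpair.1 :: cN m n.unpair.2

theorem cN_length (m n : ℕ) : (cN m n).length = m + 1 := by
  induction m generalizing n with
  | zero => rfl
  | succ m ih => simp [cN, ih]

theorem cN_comp (m : ℕ) : Computable (cN m) := by
  induction m with
  | zero =>
    show Computable fun n : ℕ => [n]
    fun_prop
  | succ m ih =>
    show Computable fun n : ℕ => n.unpair.1 :: cN m n.unpair.2
    fun_prop

theorem cN_inj (m : ℕ) : Function.Injective (cN m) := by
  induction m with
  | zero =>
    intro a b h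
    have h : [a] = [b] := h
    simpa using h
  | succ m ih =>
    intro a b h
    have h : a.unpair.1 :: cN m a.unpair.2 = b.unpair.1 :: cN m b.unpair.2 := h
    simp only [List.cons.injEq] at h
    have h2 := ih h.2
    rw [← Nat.pair_unpair a, ← Nat.pair_unpair b, h.1, h2]

theorem cN_surj (m : ℕ) (l : List ℕ) (hl : l.length = m + 1) : ∃ n, cN m n = l := by
  induction m generalizing l with
  | zero =>
    obtain ⟨a, rfl⟩ := List.length_eq_one_iff.1 hl
    exact ⟨a, rfl⟩
  | succ m ih =>
    cases l with
    | nil => simp at hl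
    | cons a s =>
      obtain ⟨n, hn⟩ := ih s (by simpa using hl)
      refine ⟨Nat.pair a n, ?_⟩
      show (Nat.pair a n).unpair.1 :: cN m (Nat.pair a n).unpair.2 = _
      rw [Nat.unpair_pair, hn]

theorem eq_of_val {l l' : List ℕ} (h : val l = val l') (hl : l.length = l'.length) : l = l' := by
  apply List.ext_getElem hl
  intro i h1 h2
  have := getD_of_val_eq i l l' h
  rwa [List.getD_eq_getElem _ _ h1, List.getD_eq_getElem _ _ h2] at this

theorem copyN (m : ℕ) : IsCopy (ω ^ ((m + 1 : ℕ) : Ordinal.{0})) (cN m) where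
  computable := cN_comp m
  injective a b h := cN_inj m (eq_of_val h (by rw [cN_length, cN_length]))
  range β := by
    constructor
    · rintro ⟨n, rfl⟩
      have := val_lt (cN m n)
      rwa [cN_length] at this
    · intro h
      obtain ⟨l, hl, hl'⟩ := exists_val _ β h
      obtain ⟨n, hn⟩ := cN_surj m l hl
      exact ⟨n, by rw [hn, hl']⟩

/-- the copy of `ω ^ ω` -/
def bump : List ℕ → List ℕ
  | [] => []
  | h :: t => t.reverse ++ [h + 1]

def cO (n : ℕ) : List ℕ := bump (Denumerable.ofNat (List ℕ) n)

theorem cO_comp : Computable cO := by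
  have h : Primrec bump := by
    refine (Primrec.list_casesOn (f := fun l : List ℕ => l) (g := fun _ => ([] : List ℕ))
      (h := fun _ p => p.2.reverse ++ [p.1 + 1]) Primrec.id (Primrec.const []) ?_).of_eq
      fun l => ?_
    · refine Primrec.list_append.comp (Primrec.list_reverse.comp (Primrec.snd.comp Primrec.snd)) ?_
      exact Primrec.list_cons.comp (Primrec.succ.comp (Primrec.fst.comp Primrec.snd))
        (Primrec.const [])
    · cases l <;> rfl
  exact h.to_comp.comp (Computable.ofNat (List ℕ))

theorem bump_getD_last (h : ℕ) (t : List ℕ) : (bump (h :: t)).getD t.length 0 = h + 1 := by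
  simp [bump]

theorem bump_getD_gt (l : List ℕ) (i : ℕ) (hi : l.length ≤ i) : (bump l).getD i 0 = 0 := by
  cases l with
  | nil => simp [bump]
  | cons h t =>
    rw [List.getD_eq_default]
    simpa [bump] using hi

theorem bump_inj {l l' : List ℕ} (h : val (bump l) = val (bump l')) : l = l' := by
  have hg := fun i => getD_of_val_eq i _ _ h
  have hlen : l.length = l'.length := by
    by_contra hne
    wlog hlt : l.length < l'.length generalizing l l'
    · exact this h.symm (fun i => (hg i).symm) (fun h => hne h.symm) (by omega)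
    cases l' with
    | nil => simp at hlt
    | cons a t =>
      have h1 := hg t.length
      rw [bump_getD_last, bump_getD_gt l _ (by simpa using Nat.lt_succ_iff.1 hlt)] at h1
      omega
  cases l with
  | nil =>
    cases l' with
    | nil => rfl
    | cons a t => simp at hlen
  | cons a t =>
    cases l' with
    | nil => simp at hlen
    | cons b s =>
      have h1 : bump (a :: t) = bump (b :: s) := eq_of_val h (by simpa [bump] using hlen)
      simp only [bump] at h1
      have h2 := List.append_inj' h1 rfl
      have h3 : t = s := by simpa using h2.1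
      have h4 : a = b := by simpa using h2.2
      rw [h3, h4]

theorem bump_surj (l : List ℕ) : ∃ l', val (bump l') = val l := by
  induction l using List.reverseRecOn with
  | nil => exact ⟨[], rfl⟩
  | append_singleton s a ih =>
    cases a with
    | zero =>
      obtain ⟨l', hl'⟩ := ih
      refine ⟨l', hl'.trans (val_eq_of fun i => ?_)⟩
      by_cases hi : i < s.length
      · rw [List.getD_append _ _ _ _ hi]
      · rw [List.getD_append_right _ _ _ _ (by omega), List.getD_eq_default _ _ (by omega)]
        rcases Nat.eq_zero_or_pos (i - s.length) with h | h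
        · simp [h]
        · rw [List.getD_eq_default]
          simp only [List.length_singleton]
          omega
    | succ a =>
      refine ⟨a :: s.reverse, ?_⟩
      simp [bump]

theorem copyO : IsCopy (ω ^ ω) cO where
  computable := cO_comp
  injective a b h := by
    have h1 := bump_inj h
    have h2 := congrArg Encodable.encode h1
    rwa [Denumerable.encode_ofNat, Denumerable.encode_ofNat] at h2
  range β := by
    constructor
    · rintro ⟨n, rfl⟩
      exact (val_lt _).trans (opow_nat_lt _)
    · intro h
      obtain ⟨n, hn⟩ := lt_omega_omega h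
      obtain ⟨l, -, rfl⟩ := exists_val n β hn
      obtain ⟨l', hl'⟩ := bump_surj l
      exact ⟨Encodable.encode l', by rw [cO, Denumerable.ofNat_encode, hl']⟩

/-! ## The bounds -/

theorem isoFG_le {c : ℕ → List ℕ} (hc : IsCopy (ω ^ ω) c) : CRed IsoFG (EMin c) := by
  refine red (fun e => (e.unpair.1 + 1, e.unpair.2)) (by fun_prop) (fun _ => True)
    (RE.const True) (fun _ => trivial) c hc.computable ?_
  intro k _ T
  exact (hc.range _).2 ((val_lt _).trans (opow_nat_lt _))

theorem Psi_length (k : ℕ) (T : Dat) : (Psi k T).length = k + 2 := by simp [Psi]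

theorem isoN_le (n : ℕ) {c : ℕ → List ℕ} (hc : IsCopy (ω ^ ((n + 2 : ℕ) : Ordinal.{0})) c) :
    CRed (IsoN n) (EMin c) := by
  refine red (fun e => (n, e)) (by fun_prop) (fun k => k = n)
    (RE.eq (by fun_prop) (by fun_prop)) (fun _ => rfl) c hc.computable ?_
  rintro k rfl T
  refine (hc.range _).2 ?_
  have := val_lt (Psi k T)
  rwa [Psi_length] at this

end Q203.CSG
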