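import Pool.Agent.Q203.CSG.Sem
import Pool.Agent.Q203.CEA.Base

/-!
# Computability of the relations
-/

set_option autoImplicit false

open Pool.Agent.Helper446

namespace Q203.CSG

section generic

variable {α β γ : Type*} [Primcodable α] [Primcodable β] [Primcodable γ]

@[fun_prop] theorem cgetD {d : β} {f : α → List β} {g : α → ℕ} (hf : Computable f)
    (hg : Computable g) : Computable fun x => (f x).getD (g x) d :=
  (Primrec.list_getD d).to_comp.comp hf hg

theorem re_mem_W' {f g : α → ℕ} (hf : Computable f)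
    (hg : Computable g) : REPred fun a => g a ∈ W (f a) := by
  have h := Pool.Agent.Q203.CEA.re_W
  exact RE.comp (p := fun p : ℕ × ℕ => p.2 ∈ W p.1) h (hf.pair hg)

theorem cert {β : Type*} {R : β → β → Prop} (x z : β) : Relation.TransGen R x z ↔
    ∃ l : List β, (∀ i < l.length, ∃ a, l[i]? = some a ∧
      (R x a ∨ ∃ j, j < i ∧ ∃ b, l[j]? = some b ∧ R b a)) ∧ z ∈ l := by
  constructor
  · intro h
    induction h with
    | @single y hy =>
      refine ⟨[y], ?_, by simp⟩
      intro i hi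
      have : i = 0 := by simpa using hi
      subst this
      exact ⟨y, by simp, Or.inl hy⟩
    | @tail b c _ hbc ih =>
      obtain ⟨l, hl, hb⟩ := ih
      refine ⟨l ++ [c], ?_, by simp⟩
      intro i hi
      rcases Nat.lt_or_ge i l.length with hil | hil
      · obtain ⟨a, ha, hR⟩ := hl i hil
        refine ⟨a, by rw [List.getElem?_append_left hil]; exact ha, ?_⟩
        rcases hR with hR | ⟨j, hj, b', hb', hR⟩
        · exact Or.inl hR
        · exact Or.inr ⟨j, hj, b', by rw [List.getElem?_append_left (by omega)]; exact hb', hR⟩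
      · have hil' : i = l.length := by
          simp only [List.length_append, List.length_singleton] at hi
          omega
        subst hil'
        refine ⟨c, by simp, Or.inr ?_⟩
        obtain ⟨j, hj⟩ := List.mem_iff_getElem?.1 hb
        have hjl : j < l.length := (List.getElem?_eq_some_iff.1 hj).1
        exact ⟨j, hjl, b, by rw [List.getElem?_append_left hjl]; exact hj, hbc⟩
  · rintro ⟨l, hl, hz⟩
    have key : ∀ i, i < l.length → ∀ a, l[i]? = some a → Relation.TransGen R x a := by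
      intro i
      induction i using Nat.strong_induction_on with
      | _ i ih =>
        intro hi a ha
        obtain ⟨a', ha', hR⟩ := hl i hi
        rw [ha] at ha'
        cases ha'
        rcases hR with hR | ⟨j, hj, b, hb, hR⟩
        · exact Relation.TransGen.single hR
        · exact Relation.TransGen.tail (ih j hj (by omega) b hb) hR
    obtain ⟨j, hj⟩ := List.mem_iff_getElem?.1 hz
    exact key j (List.getElem?_eq_some_iff.1 hj).1 z hj

theorem re_transGen {R : γ → β → β → Prop} (hS : REPred fun x : γ × β × β => R x.1 x.2.1 x.2.2) :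
    REPred fun x : γ × β × β => Relation.TransGen (R x.1) x.2.1 x.2.2 := by
  have h1 : REPred fun x : γ × β × β => ∃ l : List β, (∀ i < l.length, ∃ a, l[i]? = some a ∧
      (R x.1 x.2.1 a ∨ ∃ j < i, ∃ b, l[j]? = some b ∧ R x.1 b a)) ∧ x.2.2 ∈ l := by
    refine RE.ex (p := fun (x : γ × β × β) (l : List β) => (∀ i < l.length, ∃ a, l[i]? = some a ∧
      (R x.1 x.2.1 a ∨ ∃ j < i, ∃ b, l[j]? = some b ∧ R x.1 b a)) ∧ x.2.2 ∈ l) ?_
    refine RE.and ?_ (RE.mem_list (by fun_prop) (by fun_prop))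
    refine RE.all_lt (p := fun (y : (γ × β × β) × List β) i => ∃ a, y.2[i]? = some a ∧
      (R y.1.1 y.1.2.1 a ∨ ∃ j < i, ∃ b, y.2[j]? = some b ∧ R y.1.1 b a)) ?_ (by fun_prop)
    refine RE.ex (p := fun (z : ((γ × β × β) × List β) × ℕ) a => z.1.2[z.2]? = some a ∧
      (R z.1.1.1 z.1.1.2.1 a ∨ ∃ j < z.2, ∃ b, z.1.2[j]? = some b ∧ R z.1.1.1 b a)) ?_
    refine RE.and (RE.eq (by fun_prop) (by fun_prop)) (RE.or ?_ ?_)
    · exact RE.comp (f := fun y : (((γ × β × β) × List β) × ℕ) × β =>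
        (y.1.1.1.1, y.1.1.1.2.1, y.2)) hS (by fun_prop)
    · have h2 : REPred fun y : (((γ × β × β) × List β) × ℕ) × β => ∃ j, j < y.1.2 ∧
          ∃ b, y.1.1.2[j]? = some b ∧ R y.1.1.1.1 b y.2 := by
        refine RE.ex (p := fun (y : (((γ × β × β) × List β) × ℕ) × β) j => j < y.1.2 ∧
          ∃ b, y.1.1.2[j]? = some b ∧ R y.1.1.1.1 b y.2) ?_
        refine RE.and (RE.lt (by fun_prop) (by fun_prop)) ?_
        refine RE.ex (p := fun (w : ((((γ × β × β) × List β) × ℕ) × β) × ℕ) b =>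
          w.1.1.1.2[w.2]? = some b ∧ R w.1.1.1.1.1 b w.1.2) ?_
        refine RE.and (RE.eq (by fun_prop) (by fun_prop)) ?_
        exact RE.comp (f := fun y : (((((γ × β × β) × List β) × ℕ) × β) × ℕ) × β =>
          (y.1.1.1.1.1.1, y.2, y.1.1.2)) hS (by fun_prop)
      exact h2
  exact h1.of_eq fun x => (cert (R := R x.1) x.2.1 x.2.2).symm

end generic

abbrev ofx (x : ℕ) : List ℕ × List ℕ := Denumerable.ofNat (List ℕ × List ℕ) x

@[fun_prop] theorem cofx {α : Type*} [Primcodable α] {f : α → ℕ} (hf : Computable f) :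
    Computable fun x => ofx (f x) := (Computable.ofNat (List ℕ × List ℕ)).comp hf

/-- One derivation step between lists. -/
def StepL (q : ℕ × ℕ) (a b : List ℕ) : Prop :=
  ∃ p : List ℕ, ∃ x : ℕ, x ∈ W q.2 ∧ nz q.1 (ofx x).1 ∧ nz q.1 (ofx x).2 ∧
    ((∀ l < q.1, a.getD l 0 = p.getD l 0 + (ofx x).1.getD l 0 ∧
        b.getD l 0 = p.getD l 0 + (ofx x).2.getD l 0) ∨
      (∀ l < q.1, a.getD l 0 = p.getD l 0 + (ofx x).2.getD l 0 ∧
        b.getD l 0 = p.getD l 0 + (ofx x).1.getD l 0))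

theorem re_nz {α : Type*} [Primcodable α] {f : α → ℕ} {g : α → List ℕ} (hf : Computable f)
    (hg : Computable g) : REPred fun x => nz (f x) (g x) := by
  refine RE.exN (p := fun x i => i < f x ∧ (g x).getD i 0 ≠ 0) ?_
  exact RE.and (RE.lt (by fun_prop) (by fun_prop)) (RE.ne (by fun_prop) (by fun_prop))

theorem re_stepL : REPred fun x : (ℕ × ℕ) × List ℕ × List ℕ => StepL x.1 x.2.1 x.2.2 := by
  refine RE.ex (p := fun (x : (ℕ × ℕ) × List ℕ × List ℕ) (p : List ℕ) => ∃ y : ℕ, y ∈ W x.1.2 ∧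
    nz x.1.1 (ofx y).1 ∧ nz x.1.1 (ofx y).2 ∧
    ((∀ l < x.1.1, x.2.1.getD l 0 = p.getD l 0 + (ofx y).1.getD l 0 ∧
        x.2.2.getD l 0 = p.getD l 0 + (ofx y).2.getD l 0) ∨
      (∀ l < x.1.1, x.2.1.getD l 0 = p.getD l 0 + (ofx y).2.getD l 0 ∧
        x.2.2.getD l 0 = p.getD l 0 + (ofx y).1.getD l 0))) ?_
  refine RE.exN (p := fun (z : ((ℕ × ℕ) × List ℕ × List ℕ) × List ℕ) (y : ℕ) => y ∈ W z.1.1.2 ∧
    nz z.1.1.1 (ofx y).1 ∧ nz z.1.1.1 (ofx y).2 ∧
    ((∀ l < z.1.1.1, z.1.2.1.getD l 0 = z.2.getD l 0 + (ofx y).1.getD l 0 ∧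
        z.1.2.2.getD l 0 = z.2.getD l 0 + (ofx y).2.getD l 0) ∨
      (∀ l < z.1.1.1, z.1.2.1.getD l 0 = z.2.getD l 0 + (ofx y).2.getD l 0 ∧
        z.1.2.2.getD l 0 = z.2.getD l 0 + (ofx y).1.getD l 0))) ?_
  refine RE.and (re_mem_W' (by fun_prop) (by fun_prop)) (RE.and (re_nz (by fun_prop)
    (by fun_prop)) (RE.and (re_nz (by fun_prop) (by fun_prop)) (RE.or ?_ ?_)))
  · refine RE.all_lt (p := fun (w : (((ℕ × ℕ) × List ℕ × List ℕ) × List ℕ) × ℕ) l =>
      w.1.1.2.1.getD l 0 = w.1.2.getD l 0 + (ofx w.2).1.getD l 0 ∧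
        w.1.1.2.2.getD l 0 = w.1.2.getD l 0 + (ofx w.2).2.getD l 0) ?_ (by fun_prop)
    exact RE.and (RE.eq (by fun_prop) (by fun_prop)) (RE.eq (by fun_prop) (by fun_prop))
  · refine RE.all_lt (p := fun (w : (((ℕ × ℕ) × List ℕ × List ℕ) × List ℕ) × ℕ) l =>
      w.1.1.2.1.getD l 0 = w.1.2.getD l 0 + (ofx w.2).2.getD l 0 ∧
        w.1.1.2.2.getD l 0 = w.1.2.getD l 0 + (ofx w.2).1.getD l 0) ?_ (by fun_prop)
    exact RE.and (RE.eq (by fun_prop) (by fun_prop)) (RE.eq (by fun_prop) (by fun_prop))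

theorem vec_eq_add {k : ℕ} {a p u : List ℕ} : (∀ l < k, a.getD l 0 = p.getD l 0 + u.getD l 0) ↔
    vec k a = vec k p + vec k u := by
  constructor
  · intro h
    funext l
    exact h l l.2
  · intro h l hl
    exact congrFun h ⟨l, hl⟩

theorem stepL_iff (k j : ℕ) (a b : List ℕ) :
    StepL (k, j) a b ↔ StepV (relOf k j) (vec k a) (vec k b) := by
  constructor
  · rintro ⟨p, x, hx, h1, h2, h3⟩
    refine ⟨vec k p, ⟨vec k (ofx x).1, (nz_iff _ _).1 h1⟩, ⟨vec k (ofx x).2, (nz_iff _ _).1 h2⟩,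
      ⟨x, hx, rfl, rfl⟩, ?_⟩
    rcases h3 with h3 | h3
    · exact Or.inl ⟨vec_eq_add.1 fun l hl => (h3 l hl).1, vec_eq_add.1 fun l hl => (h3 l hl).2⟩
    · exact Or.inr ⟨vec_eq_add.1 fun l hl => (h3 l hl).1, vec_eq_add.1 fun l hl => (h3 l hl).2⟩
  · rintro ⟨p, u, v, ⟨x, hx, hu, hv⟩, h3⟩
    obtain ⟨p, rfl⟩ := vec_surj k p
    rw [hu, hv] at h3
    refine ⟨p, x, hx, ?_, ?_, ?_⟩
    · rw [nz_iff]
      exact hu ▸ u.2
    · rw [nz_iff]
      exact hv ▸ v.2
    · rcases h3 with h3 | h3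
      · exact Or.inl fun l hl => ⟨vec_eq_add.2 h3.1 l hl, vec_eq_add.2 h3.2 l hl⟩
      · exact Or.inr fun l hl => ⟨vec_eq_add.2 h3.1 l hl, vec_eq_add.2 h3.2 l hl⟩

/-- Equality of the words coded by two lists in the presented semigroup. -/
def RR (k j : ℕ) (a b : List ℕ) : Prop :=
  ∃ (ha : vec k a ≠ 0) (hb : vec k b ≠ 0), addConGen (relOf k j) ⟨vec k a, ha⟩ ⟨vec k b, hb⟩

theorem rr_iff (k j : ℕ) (a b : List ℕ) : RR k j a b ↔ nz k a ∧ nz k b ∧
    ((∀ l < k, a.getD l 0 = b.getD l 0) ∨ Relation.TransGen (StepL (k, j)) a b) := by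
  have e1 : (∀ l < k, a.getD l 0 = b.getD l 0) ↔ vec k a = vec k b := by
    constructor
    · intro h
      funext l
      exact h l l.2
    · intro h l hl
      exact congrFun h ⟨l, hl⟩
  have e2 : Relation.TransGen (StepL (k, j)) a b ↔
      Relation.TransGen (StepV (relOf k j)) (vec k a) (vec k b) := by
    constructor
    · intro h
      exact h.lift (vec k) fun _ _ h => (stepL_iff k j _ _).1 h
    · intro h
      have key : ∀ y, Relation.TransGen (StepV (relOf k j)) (vec k a) y → ∀ b, vec k b = y →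
          Relation.TransGen (StepL (k, j)) a b := by
        intro y hy
        induction hy with
        | single h =>
          rintro b rfl
          exact Relation.TransGen.single ((stepL_iff k j _ _).2 h)
        | @tail y z _ hyz ih =>
          rintro b rfl
          obtain ⟨c, rfl⟩ := vec_surj k y
          exact (ih c rfl).tail ((stepL_iff k j _ _).2 hyz)
      exact key _ h b rfl
  rw [e1, e2, nz_iff, nz_iff]
  constructor
  · rintro ⟨ha, hb, h⟩
    refine ⟨ha, hb, ?_⟩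
    rw [cong_iff] at h
    rcases Relation.reflTransGen_iff_eq_or_transGen.1 h with h1 | h1
    · exact Or.inl h1.symm
    · exact Or.inr h1
  · rintro ⟨ha, hb, h⟩
    refine ⟨ha, hb, ?_⟩
    rw [cong_iff]
    rcases h with h1 | h1
    · exact Relation.reflTransGen_iff_eq_or_transGen.2 (Or.inl h1.symm)
    · exact Relation.reflTransGen_iff_eq_or_transGen.2 (Or.inr h1)

theorem re_RR {α : Type*} [Primcodable α] {f g : α → ℕ} {a b : α → List ℕ} (hf : Computable f)
    (hg : Computable g) (ha : Computable a) (hb : Computable b) :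
    REPred fun x => RR (f x) (g x) (a x) (b x) := by
  have h1 : REPred fun x => nz (f x) (a x) ∧ nz (f x) (b x) ∧
    ((∀ l < f x, (a x).getD l 0 = (b x).getD l 0) ∨
      Relation.TransGen (StepL (f x, g x)) (a x) (b x)) := by
    refine RE.and (re_nz hf ha) (RE.and (re_nz hf hb) (RE.or ?_ ?_))
    · refine RE.all_lt (p := fun x l => (a x).getD l 0 = (b x).getD l 0) ?_ hf
      exact RE.eq (by fun_prop) (by fun_prop)
    · exact RE.comp (f := fun x => ((f x, g x), a x, b x)) (re_transGen re_stepL) (by fun_prop)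
  exact h1.of_eq fun x => (rr_iff _ _ _ _).symm

/-! ## Substitution -/

def sumf (k : ℕ) (c : List ℕ) (U : List (List ℕ)) (l : ℕ) : ℕ :=
  Nat.rec 0 (fun i s => s + c.getD i 0 * (U.getD i []).getD l 0) k

theorem sumf_eq (k : ℕ) (c : List ℕ) (U : List (List ℕ)) (l : ℕ) :
    sumf k c U l = ∑ i : Fin k, c.getD i 0 * (U.getD i []).getD l 0 := by
  induction k with
  | zero => rfl
  | succ k ih =>
    rw [Fin.sum_univ_castSucc]
    show sumf k c U l + _ = _
    rw [ih]
    rfl

def sub (k k₂ : ℕ) (c : List ℕ) (U : List (List ℕ)) : List ℕ :=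
  (List.range k₂).map fun l => sumf k c U l

theorem sub_getD {k k₂ : ℕ} {c : List ℕ} {U : List (List ℕ)} {l : ℕ} (hl : l < k₂) :
    (sub k k₂ c U).getD l 0 = sumf k c U l := by
  simp [sub, hl]

theorem primrec_sub : Primrec fun x : (ℕ × ℕ) × List ℕ × List (List ℕ) =>
    sub x.1.1 x.1.2 x.2.1 x.2.2 := by
  have h1 : Primrec₂ fun (x : (ℕ × ℕ) × List ℕ × List (List ℕ)) (l : ℕ) =>
      sumf x.1.1 x.2.1 x.2.2 l := by
    refine Primrec.nat_rec' (f := fun y : ((ℕ × ℕ) × List ℕ × List (List ℕ)) × ℕ => y.1.1.1)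
      (g := fun _ => 0)
      (h := fun y z => z.2 + y.1.2.1.getD z.1 0 * (y.1.2.2.getD z.1 []).getD y.2 0) ?_ ?_ ?_
    · exact Primrec.fst.comp (Primrec.fst.comp Primrec.fst)
    · exact Primrec.const 0
    · have g1 : Primrec fun p : ((((ℕ × ℕ) × List ℕ × List (List ℕ)) × ℕ) × (ℕ × ℕ)) =>
          p.1.1.2.1.getD p.2.1 0 :=
        (Primrec.list_getD 0).comp
          (Primrec.fst.comp (Primrec.snd.comp (Primrec.fst.comp Primrec.fst)))
          (Primrec.fst.comp Primrec.snd)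
      have g2 : Primrec fun p : ((((ℕ × ℕ) × List ℕ × List (List ℕ)) × ℕ) × (ℕ × ℕ)) =>
          p.1.1.2.2.getD p.2.1 [] :=
        (Primrec.list_getD []).comp
          (Primrec.snd.comp (Primrec.snd.comp (Primrec.fst.comp Primrec.fst)))
          (Primrec.fst.comp Primrec.snd)
      have g3 : Primrec fun p : ((((ℕ × ℕ) × List ℕ × List (List ℕ)) × ℕ) × (ℕ × ℕ)) =>
          (p.1.1.2.2.getD p.2.1 []).getD p.1.2 0 :=
        (Primrec.list_getD 0).comp g2 (Primrec.snd.comp Primrec.fst)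
      exact Primrec.nat_add.comp (Primrec.snd.comp Primrec.snd) (Primrec.nat_mul.comp g1 g3)
  exact Primrec.list_map (Primrec.list_range.comp (Primrec.snd.comp Primrec.fst)) h1

@[fun_prop] theorem csub' {α : Type*} [Primcodable α] {f g : α → ℕ} {c : α → List ℕ}
    {U : α → List (List ℕ)} (hf : Computable f) (hg : Computable g) (hc : Computable c)
    (hU : Computable U) : Computable fun x => sub (f x) (g x) (c x) (U x) :=
  primrec_sub.to_comp.comp ((hf.pair hg).pair (hc.pair hU))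

def unitL (k j : ℕ) : List ℕ := (List.range k).map fun l => if l = j then 1 else 0

theorem unitL_getD {k j l : ℕ} (hl : l < k) : (unitL k j).getD l 0 = if l = j then 1 else 0 := by
  simp [unitL, hl]

theorem vec_unitL {k : ℕ} (j : Fin k) : vec k (unitL k j) = (un k j).1 := by
  funext l
  show (unitL k j).getD l 0 = (Pi.single j 1 : Fin k → ℕ) l
  rw [unitL_getD l.2, Pi.single_apply]
  by_cases h : l = j
  · simp [h]
  · have : ¬ ((l : ℕ) = j) := fun h' => h (Fin.ext h')
    simp [h, this]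

@[fun_prop] theorem cunitL {α : Type*} [Primcodable α] {f g : α → ℕ} (hf : Computable f)
    (hg : Computable g) : Computable fun x => unitL (f x) (g x) := by
  have h : Primrec fun x : ℕ × ℕ => unitL x.1 x.2 := by
    refine Primrec.list_map (Primrec.list_range.comp Primrec.fst) ?_
    refine Primrec.ite (PrimrecRel.comp Primrec.eq Primrec.snd (Primrec.snd.comp Primrec.fst))
      (Primrec.const 1) (Primrec.const 0)
  exact h.to_comp.comp (hf.pair hg)

theorem vec_sub {k k₂ : ℕ} (c : List ℕ) (U : List (List ℕ)) (w : CW k) (hw : w.1 = vec k c)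
    (u : Fin k → CW k₂) (hu : ∀ i, (u i).1 = vec k₂ (U.getD i [])) :
    vec k₂ (sub k k₂ c U) = (evh u w).1 := by
  funext l
  show (sub k k₂ c U).getD l 0 = _
  rw [sub_getD l.2, sumf_eq, evh_apply]
  refine Finset.sum_congr rfl fun i _ => ?_
  rw [hw, hu]
  rfl

end Q203.CSG
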