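import Pool.Agent.Q203.CSG.Rec

/-!
# The reduction to `E_min`
-/

set_option autoImplicit false

open Pool.Agent.Helper446

namespace Q203.CSG

/-! ## Values of lists -/

theorem val_head (l : List ℕ) : val l = val (l.getD 0 0 :: l.tail) := by
  cases l with
  | nil => simp [val]
  | cons a s => simp

theorem getD_of_val_eq : ∀ (i : ℕ) (l l' : List ℕ), val l = val l' → l.getD i 0 = l'.getD i 0 := by
  intro i
  induction i with
  | zero =>
    intro l l' h
    rw [val_head l, val_head l'] at h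
    exact (val_eq_cons h).1
  | succ i ih =>
    intro l l' h
    rw [val_head l, val_head l'] at h
    have := ih _ _ (val_eq_cons h).2
    cases l <;> cases l' <;> simpa using this

theorem val_zero_of {l : List ℕ} (h : ∀ i, l.getD i 0 = 0) : val l = 0 := by
  induction l with
  | nil => rfl
  | cons a s ih =>
    have h1 : a = 0 := by simpa using h 0
    have h2 : val s = 0 := ih fun i => by simpa using h (i + 1)
    simp [val, h1, h2]

theorem val_eq_of {l l' : List ℕ} (h : ∀ i, l.getD i 0 = l'.getD i 0) : val l = val l' := by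
  induction l generalizing l' with
  | nil => exact (val_zero_of fun i => by simpa using (h i).symm).symm
  | cons a s ih =>
    cases l' with
    | nil => exact val_zero_of fun i => by simpa using h i
    | cons b s' =>
      have h1 : a = b := by simpa using h 0
      have h2 : val s = val s' := ih fun i => by simpa using h (i + 1)
      simp [val, h1, h2]

theorem val_eq_iff (l l' : List ℕ) : val l = val l' ↔
    ∀ i < l.length + l'.length, l.getD i 0 = l'.getD i 0 := by
  constructor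
  · intro h i _
    exact getD_of_val_eq i l l' h
  · intro h
    apply val_eq_of
    intro i
    by_cases hi : i < l.length + l'.length
    · exact h i hi
    · rw [List.getD_eq_default, List.getD_eq_default] <;> omega

/-! ## Effectiveness -/

def coverAt (k : ℕ) (T : Dat) (i : ℕ) : List Piece :=
  (T[i]?).elim [(List.range k, [])] fun t => t.2.2

theorem cover_drop (k : ℕ) (T : Dat) (i : ℕ) : cover k (T.drop i) = coverAt k T i := by
  induction T generalizing i with
  | nil => simp [coverAt, cover]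
  | cons t T ih =>
    cases i with
    | zero => simp [coverAt, cover]
    | succ i =>
      rw [List.drop_succ_cons, ih]
      simp [coverAt]

theorem cover_eq (k : ℕ) (T : Dat) : cover k T = coverAt k T 0 := cover_drop k T 0

theorem primrec_coverAt : Primrec fun x : (ℕ × Dat) × ℕ => coverAt x.1.1 x.1.2 x.2 := by
  have h : Primrec fun x : (ℕ × Dat) × ℕ => (x.1.2[x.2]? : Option Ent) :=
    Primrec.list_getElem?.comp (Primrec.snd.comp Primrec.fst) Primrec.snd
  refine (Primrec.option_casesOn (o := fun x : (ℕ × Dat) × ℕ => (x.1.2[x.2]? : Option Ent))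
    (f := fun x : (ℕ × Dat) × ℕ => ([(List.range x.1.1, [])] : List Piece))
    (g := fun _ (t : Ent) => t.2.2) h ?_ ?_).of_eq fun x => ?_
  · refine Primrec.list_cons.comp ?_ (Primrec.const [])
    exact (Primrec.list_range.comp (Primrec.fst.comp Primrec.fst)).pair (Primrec.const [])
  · exact (Primrec.snd.comp (Primrec.snd.comp Primrec.snd)).to₂
  · rcases hx : (x.1.2[x.2]? : Option Ent) with _ | t <;> simp [coverAt, hx]

@[fun_prop] theorem ccoverAt {α : Type*} [Primcodable α] {f : α → ℕ} {g : α → Dat} {h : α → ℕ}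
    (hf : Computable f) (hg : Computable g) (hh : Computable h) :
    Computable fun x => coverAt (f x) (g x) (h x) :=
  primrec_coverAt.to_comp.comp ((hf.pair hg).pair hh)

theorem cnt_foldl (d : ℕ) (L : List Piece) : cnt d L =
    L.foldl (fun s P => if P.1.length = d then s + 1 else s) 0 := by
  have key : ∀ (L : List Piece) (s : ℕ),
      L.foldl (fun s P => if P.1.length = d then s + 1 else s) s = s + cnt d L := by
    intro L
    induction L with
    | nil => intro s; simp [cnt]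
    | cons P L ih =>
      intro s
      rw [List.foldl_cons, ih]
      by_cases h : P.1.length = d
      · simp [cnt, h]
        omega
      · simp [cnt, h]
  rw [key, zero_add]

theorem primrec_cnt : Primrec fun x : ℕ × List Piece => cnt x.1 x.2 := by
  have h : Primrec fun x : ℕ × List Piece =>
      x.2.foldl (fun s P => if P.1.length = x.1 then s + 1 else s) 0 := by
    refine Primrec.list_foldl (f := fun x : ℕ × List Piece => x.2) (g := fun _ => 0)
      (h := fun x y => if y.2.1.length = x.1 then y.1 + 1 else y.1) Primrec.snd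
      (Primrec.const 0) ?_
    refine Primrec.ite (PrimrecRel.comp Primrec.eq ?_ ?_) ?_ ?_
    · exact Primrec.list_length.comp (Primrec.fst.comp (Primrec.snd.comp Primrec.snd))
    · exact Primrec.fst.comp Primrec.fst
    · exact Primrec.succ.comp (Primrec.fst.comp Primrec.snd)
    · exact Primrec.fst.comp Primrec.snd
  exact h.of_eq fun x => (cnt_foldl _ _).symm

theorem primrec_Psi : Primrec fun x : ℕ × Dat => Psi x.1 x.2 := by
  have h1 : Primrec fun x : ℕ × Dat => cover x.1 x.2 :=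
    (primrec_coverAt.comp (Primrec.id.pair (Primrec.const 0))).of_eq fun x => (cover_eq _ _).symm
  refine Primrec.list_cons.comp Primrec.encode ?_
  refine Primrec.list_map (Primrec.list_range.comp (Primrec.succ.comp Primrec.fst)) ?_
  exact (primrec_cnt.comp (Primrec.snd.pair (h1.comp Primrec.fst))).to₂

@[fun_prop] theorem cPsi {α : Type*} [Primcodable α] {f : α → ℕ} {g : α → Dat}
    (hf : Computable f) (hg : Computable g) : Computable fun x => Psi (f x) (g x) :=
  primrec_Psi.to_comp.comp (hf.pair hg)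

section re

variable {α : Type*} [Primcodable α]

theorem re_lexlt {f : α → ℕ} {a b : α → List ℕ} (hf : Computable f) (ha : Computable a)
    (hb : Computable b) : REPred fun x => lexlt (f x) (a x) (b x) := by
  refine RE.exN (p := fun x i => i < f x ∧ (a x).getD i 0 < (b x).getD i 0 ∧
    ∀ j < i, (a x).getD j 0 = (b x).getD j 0) ?_
  refine RE.and (RE.lt (by fun_prop) (by fun_prop)) (RE.and (RE.lt (by fun_prop) (by fun_prop)) ?_)
  refine RE.all_lt (p := fun (x : α × ℕ) j => (a x.1).getD j 0 = (b x.1).getD j 0) ?_ (by fun_prop)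
  exact RE.eq (by fun_prop) (by fun_prop)

theorem re_Sub {k : α → ℕ} {P : α → Piece} {i j : α → ℕ} {P' : α → Piece} (hk : Computable k)
    (hP : Computable P) (hi : Computable i) (hj : Computable j) (hP' : Computable P') :
    REPred fun x => Sub (k x) (P x) (i x) (j x) (P' x) := by
  refine RE.all_lt (p := fun x l => l ∈ (P' x).1 ∨ (l = i x ∧ (P' x).2.getD l 0 = j x) ∨
    (l ≠ i x ∧ l ∉ (P x).1 ∧ (P' x).2.getD l 0 = (P x).2.getD l 0)) ?_ hk
  refine RE.or (RE.mem_list (by fun_prop) (by fun_prop)) (RE.or ?_ ?_)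
  · exact RE.and (RE.eq (by fun_prop) (by fun_prop)) (RE.eq (by fun_prop) (by fun_prop))
  · exact RE.and (RE.ne (by fun_prop) (by fun_prop)) (RE.and
      (RE.not_mem_list (by fun_prop) (by fun_prop)) (RE.eq (by fun_prop) (by fun_prop)))

theorem re_StepCov {k : α → ℕ} {L0 L : α → List Piece} {a : α → List ℕ} (hk : Computable k)
    (hL0 : Computable L0) (ha : Computable a) (hL : Computable L) :
    REPred fun x => StepCov (k x) (L0 x) (a x) (L x) := by
  refine RE.all_mem (p := fun x (P : Piece) => P ∈ L x ∨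
    ((∀ i < k x, i ∈ P.1 ∨ (a x).getD i 0 ≤ P.2.getD i 0) ∧
    ∀ i ∈ P.1, ∀ j < (a x).getD i 0, ∃ P' ∈ L x, Sub (k x) P i j P')) ?_ hL0
  refine RE.or (RE.mem_list (by fun_prop) (by fun_prop)) (RE.and ?_ ?_)
  · refine RE.all_lt (p := fun (x : α × Piece) i => i ∈ x.2.1 ∨ (a x.1).getD i 0 ≤ x.2.2.getD i 0)
      ?_ (by fun_prop)
    exact RE.or (RE.mem_list (by fun_prop) (by fun_prop)) (RE.le (by fun_prop) (by fun_prop))
  · refine RE.all_mem (p := fun (x : α × Piece) i => ∀ j < (a x.1).getD i 0, ∃ P' ∈ L x.1,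
      Sub (k x.1) x.2 i j P') ?_ (by fun_prop)
    refine RE.all_lt (p := fun (x : (α × Piece) × ℕ) j => ∃ P' ∈ L x.1.1,
      Sub (k x.1.1) x.1.2 x.2 j P') ?_ (by fun_prop)
    refine RE.ex_mem (p := fun (x : ((α × Piece) × ℕ) × ℕ) (P' : Piece) =>
      Sub (k x.1.1.1) x.1.1.2 x.1.2 x.2 P') ?_ (by fun_prop)
    exact re_Sub (by fun_prop) (by fun_prop) (by fun_prop) (by fun_prop) (by fun_prop)

theorem re_GoodE {k : α → ℕ} {L0 : α → List Piece} {t : α → Ent} (hk : Computable k)
    (hL0 : Computable L0) (ht : Computable t) :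
    REPred fun x => GoodE (k x) (L0 x) (t x) := by
  refine RE.and (re_lexlt (by fun_prop) (by fun_prop) (by fun_prop)) (RE.and
    (re_nz (by fun_prop) (by fun_prop)) (RE.and ?_ (re_StepCov (by fun_prop) (by fun_prop)
      (by fun_prop) (by fun_prop))))
  refine RE.all_mem (p := fun x (P : Piece) => P.1.length ≤ k x) ?_ (by fun_prop)
  exact RE.le (by fun_prop) (by fun_prop)

end re

theorem good_iff (k : ℕ) (T : Dat) : Good k T ↔
    ∀ i < T.length, GoodE k (coverAt k T (i + 1)) (T.getD i ([], [], [])) := by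
  induction T with
  | nil => simp [Good]
  | cons t T ih =>
    rw [show Good k (t :: T) ↔ (Good k T ∧ GoodE k (cover k T) t) from Iff.rfl, ih]
    have e1 : ∀ i, coverAt k (t :: T) (i + 1) = coverAt k T i := fun i => by simp [coverAt]
    constructor
    · rintro ⟨h1, h2⟩ i hi
      cases i with
      | zero =>
        rw [e1, ← cover_eq]
        simpa using h2
      | succ i =>
        rw [e1]
        have := h1 i (by simpa using hi)
        simpa using this
    · intro h
      refine ⟨fun i hi => ?_, ?_⟩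
      · have := h (i + 1) (by simpa using hi)
        rw [e1] at this
        simpa using this
      · have := h 0 (by simp)
        rw [e1, ← cover_eq] at this
        simpa using this

theorem re_Good {α : Type*} [Primcodable α] {k : α → ℕ} {T : α → Dat} (hk : Computable k)
    (hT : Computable T) : REPred fun x => Good (k x) (T x) := by
  have h : REPred fun x => ∀ i < (T x).length,
      GoodE (k x) (coverAt (k x) (T x) (i + 1)) ((T x).getD i ([], [], [])) := by
    refine RE.all_lt (p := fun x i => GoodE (k x) (coverAt (k x) (T x) (i + 1))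
      ((T x).getD i ([], [], []))) ?_ (by fun_prop)
    exact re_GoodE (by fun_prop) (by fun_prop) (by fun_prop)
  exact h.of_eq fun x => (good_iff _ _).symm

/-- The relation `Onto` for lists. -/
def OntoL (k : ℕ) (T : Dat) (k₂ j : ℕ) : Prop :=
  Good k T ∧ ∃ U : List (List ℕ), (∀ i < k, nz k₂ (U.getD i [])) ∧
    (∀ t ∈ T, RR k₂ j (sub k k₂ t.1 U) (sub k k₂ t.2.1 U)) ∧
    ∀ l < k₂, ∃ c : List ℕ, nz k c ∧ RR k₂ j (sub k k₂ c U) (unitL k₂ l)

theorem re_OntoL {α : Type*} [Primcodable α] {k : α → ℕ} {T : α → Dat} {k₂ j : α → ℕ}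
    (hk : Computable k) (hT : Computable T) (hk₂ : Computable k₂) (hj : Computable j) :
    REPred fun x => OntoL (k x) (T x) (k₂ x) (j x) := by
  refine RE.and (re_Good hk hT) ?_
  refine RE.ex (p := fun x (U : List (List ℕ)) => (∀ i < k x, nz (k₂ x) (U.getD i [])) ∧
    (∀ t ∈ T x, RR (k₂ x) (j x) (sub (k x) (k₂ x) t.1 U) (sub (k x) (k₂ x) t.2.1 U)) ∧
    ∀ l < k₂ x, ∃ c : List ℕ, nz (k x) c ∧
      RR (k₂ x) (j x) (sub (k x) (k₂ x) c U) (unitL (k₂ x) l)) ?_
  refine RE.and ?_ (RE.and ?_ ?_)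
  · refine RE.all_lt (p := fun (x : α × List (List ℕ)) i => nz (k₂ x.1) (x.2.getD i [])) ?_
      (by fun_prop)
    exact re_nz (by fun_prop) (by fun_prop)
  · refine RE.all_mem (p := fun (x : α × List (List ℕ)) (t : Ent) => RR (k₂ x.1) (j x.1)
      (sub (k x.1) (k₂ x.1) t.1 x.2) (sub (k x.1) (k₂ x.1) t.2.1 x.2)) ?_ (by fun_prop)
    exact re_RR (by fun_prop) (by fun_prop) (by fun_prop) (by fun_prop)
  · refine RE.all_lt (p := fun (x : α × List (List ℕ)) l => ∃ c : List ℕ, nz (k x.1) c ∧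
      RR (k₂ x.1) (j x.1) (sub (k x.1) (k₂ x.1) c x.2) (unitL (k₂ x.1) l)) ?_ (by fun_prop)
    refine RE.ex (p := fun (x : (α × List (List ℕ)) × ℕ) (c : List ℕ) => nz (k x.1.1) c ∧
      RR (k₂ x.1.1) (j x.1.1) (sub (k x.1.1) (k₂ x.1.1) c x.1.2) (unitL (k₂ x.1.1) x.2)) ?_
    exact RE.and (re_nz (by fun_prop) (by fun_prop))
      (re_RR (by fun_prop) (by fun_prop) (by fun_prop) (by fun_prop))

theorem ontoL_iff (k : ℕ) (T : Dat) (k₂ j : ℕ) : OntoL k T k₂ j ↔ Onto k T (Pres k₂ j) := by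
  constructor
  · rintro ⟨h1, U, hU1, hU2, hU3⟩
    refine ⟨h1, ?_⟩
    let u : Fin k → CW k₂ := fun i => ⟨vec k₂ (U.getD i []), (nz_iff _ _).1 (hU1 i i.2)⟩
    have hu : ∀ i, (u i).1 = vec k₂ (U.getD i []) := fun i => rfl
    let f : CW k →ₙ+ Pres k₂ j := ⟨fun w => ((evh u w : CW k₂) : Pres k₂ j), fun a b => by
      rw [map_add]
      rfl⟩
    have hf : ∀ w, f w = ((evh u w : CW k₂) : Pres k₂ j) := fun w => rfl
    refine ⟨f, ?_, ?_⟩
    · -- surjectivity: the range contains the generators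
      have h2 : ∀ l : Fin k₂, ∃ c : CW k, f c = ((un k₂ l : CW k₂) : Pres k₂ j) := by
        intro l
        obtain ⟨c, hc, hne, hne', hR⟩ := hU3 l l.2
        let c' : CW k := ⟨vec k c, (nz_iff _ _).1 hc⟩
        refine ⟨c', ?_⟩
        rw [hf]
        refine (AddCon.eq _).2 ?_
        have e1 : (⟨vec k₂ (sub k k₂ c U), hne⟩ : CW k₂) = evh u c' :=
          Subtype.ext (vec_sub c U c' rfl u hu)
        have e2 : (⟨vec k₂ (unitL k₂ l), hne'⟩ : CW k₂) = un k₂ l := Subtype.ext (vec_unitL l)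
        rw [e1, e2] at hR
        exact hR
      choose c hc using h2
      intro q
      induction q using AddCon.induction_on with
      | _ w =>
        refine ⟨evh c w, ?_⟩
        let g : CW k₂ →ₙ+ Pres k₂ j := ⟨fun w => (w : Pres k₂ j), fun _ _ => rfl⟩
        have h3 : f.comp (evh c) = g := hom_ext _ _ fun l => by
          show f (evh c (un k₂ l)) = _
          rw [evh_un, hc]
          rfl
        have := congrArg (fun h : CW k₂ →ₙ+ Pres k₂ j => h w) h3
        exact this
    · rintro a b ⟨t, ht, ha, hb⟩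
      obtain ⟨hne, hne', hR⟩ := hU2 t ht
      rw [hf, hf]
      refine (AddCon.eq _).2 ?_
      have e1 : (⟨vec k₂ (sub k k₂ t.1 U), hne⟩ : CW k₂) = evh u a :=
        Subtype.ext (vec_sub t.1 U a ha u hu)
      have e2 : (⟨vec k₂ (sub k k₂ t.2.1 U), hne'⟩ : CW k₂) = evh u b :=
        Subtype.ext (vec_sub t.2.1 U b hb u hu)
      rw [e1, e2] at hR
      exact hR
  · rintro ⟨h1, f, hf1, hf2⟩
    obtain ⟨u, hu⟩ := exists_lift (addConGen (relOf k₂ j)) f
    have h2 : ∀ i : Fin k, ∃ l : List ℕ, vec k₂ l = (u i).1 := fun i => vec_surj k₂ _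
    choose lu hlu using h2
    let U : List (List ℕ) := List.ofFn lu
    have hU : ∀ i : Fin k, (u i).1 = vec k₂ (U.getD i []) := by
      intro i
      rw [← hlu]
      simp [U]
    have hsub : ∀ (c : List ℕ) (w : CW k), w.1 = vec k c →
        vec k₂ (sub k k₂ c U) = (evh u w).1 := fun c w hw => vec_sub c U w hw u hU
    refine ⟨h1, U, ?_, ?_, ?_⟩
    · intro i hi
      rw [nz_iff, ← hU ⟨i, hi⟩]
      exact (u ⟨i, hi⟩).2
    · intro t ht
      obtain ⟨h3, h4⟩ := h1.mem t ht
      rw [lexlt_iff] at h3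
      rw [nz_iff] at h4
      let a : CW k := ⟨vec k t.1, lex_ne_zero h3⟩
      let b : CW k := ⟨vec k t.2.1, h4⟩
      have h5 : f a = f b := hf2 a b ⟨t, ht, rfl, rfl⟩
      rw [hu, hu] at h5
      have h6 := (AddCon.eq _).1 h5
      have e1 := hsub t.1 a rfl
      have e2 := hsub t.2.1 b rfl
      refine ⟨by rw [e1]; exact (evh u a).2, by rw [e2]; exact (evh u b).2, ?_⟩
      have e3 : (⟨vec k₂ (sub k k₂ t.1 U), by rw [e1]; exact (evh u a).2⟩ : CW k₂) = evh u a :=
        Subtype.ext e1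
      have e4 : (⟨vec k₂ (sub k k₂ t.2.1 U), by rw [e2]; exact (evh u b).2⟩ : CW k₂) = evh u b :=
        Subtype.ext e2
      rw [e3, e4]
      exact h6
    · intro l hl
      obtain ⟨w, hw⟩ := hf1 ((un k₂ ⟨l, hl⟩ : CW k₂) : Pres k₂ j)
      obtain ⟨c, hc⟩ := vec_surj k w.1
      refine ⟨c, by rw [nz_iff, hc]; exact w.2, ?_⟩
      rw [hu] at hw
      have h6 := (AddCon.eq _).1 hw
      have e1 := hsub c w hc.symm
      have e2 := vec_unitL (⟨l, hl⟩ : Fin k₂)
      refine ⟨by rw [e1]; exact (evh u w).2, by rw [show unitL k₂ l = unitL k₂ ((⟨l, hl⟩ : Fin k₂) : ℕ) from rfl, e2]; exact (un k₂ ⟨l, hl⟩).2, ?_⟩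
      have e3 : (⟨vec k₂ (sub k k₂ c U), by rw [e1]; exact (evh u w).2⟩ : CW k₂) = evh u w :=
        Subtype.ext e1
      have e4 : (⟨vec k₂ (unitL k₂ l), by rw [show unitL k₂ l = unitL k₂ ((⟨l, hl⟩ : Fin k₂) : ℕ) from rfl, e2]; exact (un k₂ ⟨l, hl⟩).2⟩ : CW k₂) = un k₂ ⟨l, hl⟩ :=
        Subtype.ext e2
      rw [e3, e4]
      exact h6

/-- The reduction. -/
theorem red (pr : ℕ → ℕ × ℕ) (hpr : Computable pr) (A : ℕ → Prop) (hA : REPred A)
    (hprA : ∀ e, A (pr e).1) (c : ℕ → List ℕ) (hc : Computable c)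
    (hrange : ∀ k, A k → ∀ T, ∃ m, val (c m) = val (Psi k T)) :
    CRed (fun e i => Nonempty (Pres (pr e).1 (pr e).2 ≃+ Pres (pr i).1 (pr i).2)) (EMin c) := by
  have hre : REPred fun p : ℕ × ℕ => ∃ k : ℕ, ∃ T : Dat, A k ∧
      OntoL k T (pr p.1).1 (pr p.1).2 ∧ val (c p.2) = val (Psi k T) := by
    refine RE.exN (p := fun (p : ℕ × ℕ) k => ∃ T : Dat, A k ∧
      OntoL k T (pr p.1).1 (pr p.1).2 ∧ val (c p.2) = val (Psi k T)) ?_
    refine RE.ex (p := fun (p : (ℕ × ℕ) × ℕ) (T : Dat) => A p.2 ∧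
      OntoL p.2 T (pr p.1.1).1 (pr p.1.1).2 ∧ val (c p.1.2) = val (Psi p.2 T)) ?_
    refine RE.and (RE.comp hA (by fun_prop)) (RE.and (re_OntoL (by fun_prop) (by fun_prop)
      (by fun_prop) (by fun_prop)) ?_)
    have h : REPred fun x : ((ℕ × ℕ) × ℕ) × Dat => ∀ i < (c x.1.1.2).length +
        (Psi x.1.2 x.2).length, (c x.1.1.2).getD i 0 = (Psi x.1.2 x.2).getD i 0 := by
      refine RE.all_lt (p := fun (x : ((ℕ × ℕ) × ℕ) × Dat) i =>
        (c x.1.1.2).getD i 0 = (Psi x.1.2 x.2).getD i 0) ?_ (by fun_prop)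
      exact RE.eq (by fun_prop) (by fun_prop)
    exact h.of_eq fun x => (val_eq_iff _ _).symm
  obtain ⟨f, hf, hfW⟩ := Pool.Agent.Q203.CEA.smn (P := fun e m => ∃ k : ℕ, ∃ T : Dat, A k ∧
      OntoL k T (pr e).1 (pr e).2 ∧ val (c m) = val (Psi k T)) hre
  have hW : ∀ e m, m ∈ W (f e) ↔ ∃ k T, A k ∧ Onto k T (Pres (pr e).1 (pr e).2) ∧
      val (c m) = val (Psi k T) := by
    intro e m
    refine (hfW e m).trans ?_
    simp only [ontoL_iff]
  have hne : ∀ e, ∃ m, m ∈ W (f e) := by
    intro e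
    obtain ⟨m, hm⟩ := hrange _ (hprA e) []
    exact ⟨m, (hW e m).2 ⟨_, [], hprA e, onto_self _ _, hm⟩⟩
  refine ⟨f, hf, fun e i => ⟨?_, ?_⟩⟩
  · rintro ⟨φ⟩
    have h1 : W (f e) = W (f i) := by
      ext m
      rw [hW, hW]
      constructor
      · rintro ⟨k, T, h1, h2, h3⟩
        exact ⟨k, T, h1, h2.congr φ, h3⟩
      · rintro ⟨k, T, h1, h2, h3⟩
        exact ⟨k, T, h1, h2.congr φ.symm, h3⟩
    right
    obtain ⟨m, hm1, hm2⟩ := (InvImage.wf (fun m => val (c m)) Ordinal.lt_wf).has_min (W (f e))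
      (hne e)
    have hm3 : ∀ x ∈ W (f e), val (c m) ≤ val (c x) := fun x hx => not_lt.1 (hm2 x hx)
    exact ⟨m, hm1, h1 ▸ hm1, hm3, h1 ▸ hm3⟩
  · rintro (⟨h1, -⟩ | ⟨m, hme, hmi, hmin, hmin'⟩)
    · obtain ⟨m, hm⟩ := hne e
      rw [h1] at hm
      exact absurd hm (Set.notMem_empty _)
    · obtain ⟨k, T, hk, h1, h2⟩ := (hW e m).1 hme
      obtain ⟨k', T', hk', h1', h2'⟩ := (hW i m).1 hmi
      obtain ⟨rfl, rfl⟩ := Psi_inj (h2.symm.trans h2')
      refine iso_of_min h1 ?_ h1' ?_
      · intro T' hT'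
        obtain ⟨m', hm'⟩ := hrange k hk T'
        rw [← h2, ← hm']
        exact hmin m' ((hW e m').2 ⟨k, T', hk, hT', hm'⟩)
      · intro T' hT'
        obtain ⟨m', hm'⟩ := hrange k hk T'
        rw [← h2, ← hm']
        exact hmin' m' ((hW i m').2 ⟨k, T', hk, hT', hm'⟩)

end Q203.CSG
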