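import Pool.Agent.Q203.CSG.Core

/-!
# Homomorphisms from free commutative semigroups and derivations
-/

set_option autoImplicit false

namespace Q203.CSG

/-- The data `(k, T)` are good and their semigroup maps onto `S`. -/
def Onto (k : ℕ) (T : Dat) (S : Type) [Add S] : Prop :=
  Good k T ∧ ∃ f : CW k →ₙ+ S, Function.Surjective f ∧ ∀ u v : CW k, relT k T u v → f u = f v

theorem Onto.congr {k : ℕ} {T : Dat} {S S' : Type} [Add S] [Add S'] (e : S ≃+ S')
    (h : Onto k T S) : Onto k T S' := by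
  obtain ⟨h1, f, h2, h3⟩ := h
  refine ⟨h1, (e : S →ₙ+ S').comp f, ?_, fun u v huv => ?_⟩
  · exact e.surjective.comp h2
  · show e (f u) = e (f v)
    rw [h3 u v huv]

theorem onto_self (k e : ℕ) : Onto k [] (Pres k e) := by
  refine ⟨trivial, ⟨⟨fun u => ((u : CW k) : (addConGen (relOf k e)).Quotient), fun _ _ => rfl⟩, ?_, ?_⟩⟩
  · intro q
    induction q using AddCon.induction_on with
    | _ u => exact ⟨u, rfl⟩
  · rintro u v ⟨t, ht, -⟩
    simp at ht

/-- At a minimal datum the kernel is the congruence of the datum. -/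
theorem min_ker {k : ℕ} {T : Dat} {S : Type} [Add S] (h : Onto k T S)
    (hmin : ∀ T', Onto k T' S → val (Psi k T) ≤ val (Psi k T')) :
    ∃ f : CW k →ₙ+ S, Function.Surjective f ∧ ∀ u v : CW k, f u = f v ↔
      addConGen (relT k T) u v := by
  obtain ⟨h1, f, h2, h3⟩ := h
  let r : AddCon (CW k) :=
    { r := fun u v => f u = f v
      iseqv := ⟨fun _ => rfl, fun h => h.symm, fun h h' => h.trans h'⟩
      add' := fun {w x y z} h h' => by
        rw [map_add, map_add, h, h'] }
  have hr : ∀ u v, r u v ↔ f u = f v := fun u v => Iff.rfl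
  refine ⟨f, h2, fun u v => ⟨fun huv => ?_, fun huv => ?_⟩⟩
  · by_contra hcon
    obtain ⟨t, ht1, ht2, ht3⟩ := extend h1 r (fun u v h => h3 u v h) ((hr u v).2 huv) hcon
    refine absurd (hmin (t :: T) ⟨ht1, f, h2, ?_⟩) (not_le.2 ht3)
    rintro a b ⟨s, hs, ha, hb⟩
    rcases List.mem_cons.1 hs with rfl | hs
    · exact ht2 a b ha hb
    · exact h3 a b ⟨s, hs, ha, hb⟩
  · exact (hr u v).1 ((AddCon.addConGen_le (c := r)).2 (fun u v h => h3 u v h) huv)

theorem equiv_of_ker {A S S' : Type} [Add A] [Add S] [Add S'] (f : A →ₙ+ S) (f' : A →ₙ+ S')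
    (h : Function.Surjective f) (h' : Function.Surjective f')
    (hk : ∀ u v, f u = f v ↔ f' u = f' v) : Nonempty (S ≃+ S') := by
  choose g hg using h
  choose g' hg' using h'
  have k1 : ∀ u, f' (g (f u)) = f' u := fun u => (hk _ _).1 (hg _)
  have k2 : ∀ u, f (g' (f' u)) = f u := fun u => (hk _ _).2 (hg' _)
  refine ⟨{ toFun := fun s => f' (g s), invFun := fun s => f (g' s), left_inv := ?_,
            right_inv := ?_, map_add' := ?_ }⟩
  · intro s
    show f (g' (f' (g s))) = s
    rw [k2, hg]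
  · intro s
    show f' (g (f (g' s))) = s
    rw [k1, hg']
  · intro s t
    show f' (g (s + t)) = f' (g s) + f' (g t)
    rw [← map_add]
    apply (hk _ _).1
    rw [hg, map_add, hg, hg]

/-- Isomorphism from a common minimal datum. -/
theorem iso_of_min {k : ℕ} {T : Dat} {S S' : Type} [Add S] [Add S'] (h : Onto k T S)
    (hmin : ∀ T', Onto k T' S → val (Psi k T) ≤ val (Psi k T')) (h' : Onto k T S')
    (hmin' : ∀ T', Onto k T' S' → val (Psi k T) ≤ val (Psi k T')) : Nonempty (S ≃+ S') := by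
  obtain ⟨f, h1, h2⟩ := min_ker h hmin
  obtain ⟨f', h3, h4⟩ := min_ker h' hmin'
  exact equiv_of_ker f f' h1 h3 fun u v => (h2 u v).trans (h4 u v).symm

/-! ## Homomorphisms given by images of the generators -/

theorem CW.exists_ne {k : ℕ} (c : CW k) : ∃ i, c.1 i ≠ 0 := Function.ne_iff.1 c.2

/-- The unit vectors. -/
def un (k : ℕ) (i : Fin k) : CW k := ⟨Pi.single i 1, fun h => by
  have := congrFun h i
  simp at this⟩

/-- The homomorphism with the given images of the generators. -/
def evh {k k₂ : ℕ} (u : Fin k → CW k₂) : CW k →ₙ+ CW k₂ where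
  toFun c := ⟨fun l => ∑ i, c.1 i * (u i).1 l, fun h => by
    obtain ⟨i, hi⟩ := c.exists_ne
    obtain ⟨l, hl⟩ := (u i).exists_ne
    have h1 : ∑ i, c.1 i * (u i).1 l = 0 := congrFun h l
    rw [Finset.sum_eq_zero_iff] at h1
    have h2 := h1 i (Finset.mem_univ i)
    rcases Nat.mul_eq_zero.1 h2 with h3 | h3
    · exact hi h3
    · exact hl h3⟩
  map_add' c d := Subtype.ext (funext fun l => by
    show ∑ i, (c.1 i + d.1 i) * (u i).1 l = ∑ i, c.1 i * (u i).1 l + ∑ i, d.1 i * (u i).1 l
    rw [← Finset.sum_add_distrib]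
    exact Finset.sum_congr rfl fun i _ => add_mul _ _ _)

theorem evh_apply {k k₂ : ℕ} (u : Fin k → CW k₂) (c : CW k) (l : Fin k₂) :
    (evh u c).1 l = ∑ i, c.1 i * (u i).1 l := rfl

theorem evh_un {k k₂ : ℕ} (u : Fin k → CW k₂) (i : Fin k) : evh u (un k i) = u i := by
  apply Subtype.ext
  funext l
  rw [evh_apply, Finset.sum_eq_single i]
  · simp [un]
  · intro j _ hj
    simp [un, Pi.single_apply, hj]
  · intro h
    exact absurd (Finset.mem_univ i) h

theorem hom_ext {k : ℕ} {S : Type} [Add S] (f g : CW k →ₙ+ S) (h : ∀ i, f (un k i) = g (un k i)) :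
    f = g := by
  have key : ∀ n : ℕ, ∀ c : CW k, ∑ i, c.1 i = n → f c = g c := by
    intro n
    induction n using Nat.strong_induction_on with
    | _ n ih =>
      intro c hc
      obtain ⟨i, hi⟩ := c.exists_ne
      by_cases h1 : c = un k i
      · rw [h1, h i]
      · have hle : ∀ j, (Pi.single i 1 : Fin k → ℕ) j ≤ c.1 j := by
          intro j
          by_cases hj : j = i
          · subst hj
            rw [Pi.single_eq_same]
            omega
          · rw [Pi.single_eq_of_ne hj]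
            omega
        have h2 : c.1 - Pi.single i 1 ≠ 0 := by
          intro h2
          apply h1
          apply Subtype.ext
          funext j
          have h3 : c.1 j - (Pi.single i 1 : Fin k → ℕ) j = 0 := congrFun h2 j
          have h4 := hle j
          show c.1 j = (Pi.single i 1 : Fin k → ℕ) j
          omega
        let d : CW k := ⟨c.1 - Pi.single i 1, h2⟩
        have h3 : c = un k i + d := by
          apply Subtype.ext
          funext j
          exact (Nat.add_sub_of_le (hle j)).symm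
        have h4 : ∑ j, c.1 j = 1 + ∑ j, d.1 j := by
          rw [h3]
          show ∑ j, ((Pi.single i 1 : Fin k → ℕ) j + d.1 j) = _
          rw [Finset.sum_add_distrib]
          simp
        rw [h3, map_add, map_add, h i, ih _ (by omega) d rfl]
  ext c
  exact key _ c rfl

/-- Every homomorphism to a quotient of a free commutative semigroup lifts. -/
theorem exists_lift {k k₂ : ℕ} (c : AddCon (CW k₂)) (f : CW k →ₙ+ c.Quotient) :
    ∃ u : Fin k → CW k₂, ∀ w : CW k, f w = ((evh u w : CW k₂) : c.Quotient) := by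
  have h1 : ∀ i, ∃ w : CW k₂, (w : c.Quotient) = f (un k i) := by
    intro i
    induction f (un k i) using AddCon.induction_on with
    | _ w => exact ⟨w, rfl⟩
  choose u hu using h1
  refine ⟨u, fun w => ?_⟩
  let g : CW k →ₙ+ c.Quotient :=
    ⟨fun w => ((evh u w : CW k₂) : c.Quotient), fun a b => by
      rw [map_add]
      rfl⟩
  have : f = g := hom_ext f g fun i => by
    show _ = ((evh u (un k i) : CW k₂) : c.Quotient)
    rw [evh_un, hu]
  rw [this]
  rfl

/-! ## Derivations -/

/-- One step of a derivation. -/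
def StepV {k : ℕ} (r : CW k → CW k → Prop) (x y : Fin k → ℕ) : Prop :=
  ∃ (p : Fin k → ℕ) (u v : CW k), r u v ∧
    ((x = p + u.1 ∧ y = p + v.1) ∨ (x = p + v.1 ∧ y = p + u.1))

theorem StepV.symm {k : ℕ} {r : CW k → CW k → Prop} {x y : Fin k → ℕ} (h : StepV r x y) :
    StepV r y x := by
  obtain ⟨p, u, v, h1, h2 | h2⟩ := h
  · exact ⟨p, u, v, h1, Or.inr ⟨h2.2, h2.1⟩⟩
  · exact ⟨p, u, v, h1, Or.inl ⟨h2.2, h2.1⟩⟩

theorem StepV.add {k : ℕ} {r : CW k → CW k → Prop} {x y : Fin k → ℕ} (h : StepV r x y)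
    (q : Fin k → ℕ) : StepV r (x + q) (y + q) := by
  obtain ⟨p, u, v, h1, ⟨rfl, rfl⟩ | ⟨rfl, rfl⟩⟩ := h
  · exact ⟨p + q, u, v, h1, Or.inl ⟨by abel, by abel⟩⟩
  · exact ⟨p + q, u, v, h1, Or.inr ⟨by abel, by abel⟩⟩

theorem StepV.ne {k : ℕ} {r : CW k → CW k → Prop} {x y : Fin k → ℕ} (h : StepV r x y) :
    ∃ (hx : x ≠ 0) (hy : y ≠ 0), addConGen r ⟨x, hx⟩ ⟨y, hy⟩ := by
  have main : ∀ (p : Fin k → ℕ) (u v : CW k), r u v →
      ∃ (hx : p + u.1 ≠ 0) (hy : p + v.1 ≠ 0), addConGen r ⟨p + u.1, hx⟩ ⟨p + v.1, hy⟩ := by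
    intro p u v h
    have hne : ∀ w : CW k, p + w.1 ≠ 0 := by
      intro w h1
      obtain ⟨i, hi⟩ := w.exists_ne
      have h2 : p i + w.1 i = 0 := congrFun h1 i
      omega
    refine ⟨hne u, hne v, ?_⟩
    have h1 : addConGen r u v := AddConGen.Rel.of _ _ h
    by_cases hp : p = 0
    · subst hp
      have e1 : (⟨0 + u.1, hne u⟩ : CW k) = u := Subtype.ext (zero_add _)
      have e2 : (⟨0 + v.1, hne v⟩ : CW k) = v := Subtype.ext (zero_add _)
      rw [e1, e2]
      exact h1
    · let p' : CW k := ⟨p, hp⟩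
      exact (addConGen r).add ((addConGen r).refl p') h1
  obtain ⟨p, u, v, h1, ⟨rfl, rfl⟩ | ⟨rfl, rfl⟩⟩ := h
  · exact main p u v h1
  · obtain ⟨hx, hy, h2⟩ := main p u v h1
    exact ⟨hy, hx, (addConGen r).symm h2⟩

theorem cong_iff {k : ℕ} (r : CW k → CW k → Prop) (w w' : CW k) :
    addConGen r w w' ↔ Relation.ReflTransGen (StepV r) w.1 w'.1 := by
  constructor
  · intro h
    have hs : ∀ x y : Fin k → ℕ, Relation.ReflTransGen (StepV r) x y →
        Relation.ReflTransGen (StepV r) y x := by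
      intro x y hxy
      induction hxy with
      | refl => exact Relation.ReflTransGen.refl
      | tail _ hbc ih => exact Relation.ReflTransGen.head hbc.symm ih
    replace h : AddConGen.Rel r w w' := h
    induction h with
    | of x y hxy => exact Relation.ReflTransGen.single ⟨0, x, y, hxy, Or.inl ⟨by simp, by simp⟩⟩
    | refl x => exact Relation.ReflTransGen.refl
    | symm _ ih => exact hs _ _ ih
    | trans _ _ ih1 ih2 => exact ih1.trans ih2
    | @add a b c d _ _ ih1 ih2 =>
      have h1 : Relation.ReflTransGen (StepV r) (a.1 + c.1) (b.1 + c.1) :=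
        ih1.lift (· + c.1) fun _ _ h => h.add c.1
      have h2 : Relation.ReflTransGen (StepV r) (b.1 + c.1) (b.1 + d.1) := by
        rw [add_comm b.1 c.1, add_comm b.1 d.1]
        exact ih2.lift (· + b.1) fun _ _ h => h.add b.1
      exact h1.trans h2
  · intro h
    have key : ∀ x y : Fin k → ℕ, Relation.ReflTransGen (StepV r) x y → ∀ hx : x ≠ 0,
        ∃ hy : y ≠ 0, addConGen r (⟨x, hx⟩ : CW k) ⟨y, hy⟩ := by
      intro x y hxy hx
      induction hxy with
      | refl => exact ⟨hx, (addConGen r).refl _⟩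
      | tail _ hbc ih =>
        obtain ⟨hb, h1⟩ := ih
        obtain ⟨_, hc, h2⟩ := hbc.ne
        exact ⟨hc, (addConGen r).trans h1 h2⟩
    obtain ⟨_, h1⟩ := key w.1 w'.1 h w.2
    exact h1

end Q203.CSG
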